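import Mathlib

namespace Pool.Agent.Results.MP_2e7467_an.Gas

open Filter Topology Finset

/-- `x` (with `x i` the term of index `i - k`) is a solution with nonnegative initial values. -/
def IsSol (k : ℕ) (A : ℝ) (β B : ℕ → ℝ) (x : ℕ → ℝ) : Prop :=
  (∀ i ≤ k, 0 ≤ x i) ∧ ∀ n : ℕ, x (n + k + 1) =
    (∑ i ∈ range (k + 1), β i * x (n + k - i)) / (A + ∑ i ∈ range (k + 1), B i * x (n + k - i))

section
variable {k : ℕ} {A : ℝ} {β B x : ℕ → ℝ}

lemma step_le (hA : 0 < A) (hβ : ∀ i, 0 ≤ β i) (hB : ∀ i, 0 ≤ B i)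
    (hAβ : A = ∑ i ∈ range (k + 1), β i) (u : ℕ → ℝ) (M : ℝ)
    (hu : ∀ i ≤ k, 0 ≤ u i ∧ u i ≤ M) :
    0 ≤ (∑ i ∈ range (k + 1), β i * u i) / (A + ∑ i ∈ range (k + 1), B i * u i) ∧
    (∑ i ∈ range (k + 1), β i * u i) / (A + ∑ i ∈ range (k + 1), B i * u i) ≤ M := by
  have h1 : 0 ≤ ∑ i ∈ range (k + 1), β i * u i :=
    sum_nonneg fun i hi => mul_nonneg (hβ i) (hu i (by simp at hi; omega)).1
  have h2 : 0 ≤ ∑ i ∈ range (k + 1), B i * u i :=
    sum_nonneg fun i hi => mul_nonneg (hB i) (hu i (by simp at hi; omega)).1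
  have hM : 0 ≤ M := (hu 0 (by omega)).1.trans (hu 0 (by omega)).2
  refine ⟨by positivity, ?_⟩
  rw [div_le_iff₀ (by positivity)]
  have h3 : ∑ i ∈ range (k + 1), β i * u i ≤ ∑ i ∈ range (k + 1), β i * M :=
    sum_le_sum fun i hi => mul_le_mul_of_nonneg_left (hu i (by simp at hi; omega)).2 (hβ i)
  rw [← sum_mul, ← hAβ] at h3
  nlinarith [mul_nonneg hM h2]

lemma bound (hA : 0 < A) (hβ : ∀ i, 0 ≤ β i) (hB : ∀ i, 0 ≤ B i)
    (hAβ : A = ∑ i ∈ range (k + 1), β i) (hx : IsSol k A β B x) (M : ℝ)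
    (hM : ∀ i ≤ k, x i ≤ M) : ∀ n, 0 ≤ x n ∧ x n ≤ M := by
  intro n
  induction n using Nat.strong_induction_on with
  | _ n ih =>
    by_cases hn : n ≤ k
    · exact ⟨hx.1 n hn, hM n hn⟩
    · obtain ⟨m, rfl⟩ : ∃ m, n = m + k + 1 := ⟨n - k - 1, by omega⟩
      rw [hx.2]
      exact step_le hA hβ hB hAβ (fun i => x (m + k - i)) M fun i _ => ih _ (by omega)

lemma extremal (hA : 0 < A) (hβ : ∀ i, 0 ≤ β i) (hB : ∀ i, 0 ≤ B i)
    (hAβ : A = ∑ i ∈ range (k + 1), β i) (u : ℕ → ℝ) (M : ℝ) (hM : 0 < M)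
    (hu : ∀ i ≤ k, 0 ≤ u i ∧ u i ≤ M)
    (he : M * (A + ∑ i ∈ range (k + 1), B i * u i) = ∑ i ∈ range (k + 1), β i * u i) :
    (∀ i ≤ k, 0 < β i → u i = M) ∧ ∀ i ≤ k, 0 < B i → u i = 0 := by
  have h1 : ∀ i ∈ range (k + 1), 0 ≤ β i * (M - u i) + M * (B i * u i) := fun i hi => by
    have := hu i (by simp at hi; omega)
    have := mul_nonneg (hβ i) (sub_nonneg.2 this.2)
    have := mul_nonneg hM.le (mul_nonneg (hB i) (hu i (by simp at hi; omega)).1)
    linarith
  have h2 : ∑ i ∈ range (k + 1), (β i * (M - u i) + M * (B i * u i)) = 0 := by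
    simp only [mul_sub, sum_add_distrib, sum_sub_distrib, ← sum_mul, ← mul_sum]
    rw [← hAβ]; linarith
  have h3 := (sum_eq_zero_iff_of_nonneg h1).1 h2
  constructor
  · intro i hi hb
    have h4 := h3 i (by simp; omega)
    have := mul_nonneg (hβ i) (sub_nonneg.2 (hu i hi).2)
    have := mul_nonneg hM.le (mul_nonneg (hB i) (hu i hi).1)
    have h5 : β i * (M - u i) = 0 := by linarith
    rcases mul_eq_zero.1 h5 with h | h <;> linarith
  · intro i hi hb
    have h4 := h3 i (by simp; omega)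
    have := mul_nonneg (hβ i) (sub_nonneg.2 (hu i hi).2)
    have := mul_nonneg hM.le (mul_nonneg (hB i) (hu i hi).1)
    have h5 : M * (B i * u i) = 0 := by linarith
    simpa [hM.ne', hb.ne'] using h5

lemma attract (hA : 0 < A) (hβ : ∀ i, 0 ≤ β i) (hB : ∀ i, 0 ≤ B i)
    (hAβ : A = ∑ i ∈ range (k + 1), β i) (t : ℕ) (ht : t ≤ k) (hBt : 0 < B t)
    (hmem : ((t + 1 : ℕ) : ℤ) ∈ AddSubgroup.closure
      {d : ℤ | ∃ i ≤ k, 0 < β i ∧ d = ((i + 1 : ℕ) : ℤ)})
    (hx : IsSol k A β B x) : Tendsto x atTop (𝓝 0) := by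
  have hb := bound hA hβ hB hAβ hx (∑ i ∈ range (k + 1), x i) fun i hi =>
    single_le_sum (f := x) (fun j hj => hx.1 j (by simp at hj; omega)) (by simp; omega)
  have hb1 : IsBoundedUnder (· ≤ ·) atTop x := isBoundedUnder_of ⟨_, fun n => (hb n).2⟩
  have hb2 : IsBoundedUnder (· ≥ ·) atTop x := isBoundedUnder_of ⟨0, fun n => (hb n).1⟩
  set M := limsup x atTop with hMdef
  have hI0 : 0 ≤ liminf x atTop :=
    le_liminf_of_le hb1.isCoboundedUnder_ge (Eventually.of_forall fun n => (hb n).1)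
  have hIS : liminf x atTop ≤ M := liminf_le_limsup hb1 hb2
  suffices hM : M ≤ 0 by
    exact tendsto_of_liminf_eq_limsup (by linarith) (by linarith) hb1 hb2
  by_contra hM
  push Not at hM
  have hcl : MapClusterPt M atTop x := MapClusterPt.limsup hb2.isCoboundedUnder_le hb1
  obtain ⟨U, hU1, hU2⟩ := mapClusterPt_iff_ultrafilter.1 hcl
  have hz : ∀ j : ℕ, ∃ z, z ∈ Set.Icc 0 M ∧ Tendsto (fun n => x (n - j)) U (𝓝 z) := by
    intro j
    obtain ⟨z, -, hz⟩ := (isCompact_Icc (a := (0 : ℝ)) (b := ∑ i ∈ range (k + 1), x i)).ultrafilter_le_nhds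
      (U.map fun n => x (n - j)) (by
        rw [Ultrafilter.coe_map, le_principal_iff, Filter.mem_map]
        exact Eventually.of_forall fun n => hb _)
    have hz' : Tendsto (fun n => x (n - j)) U (𝓝 z) := hz
    refine ⟨z, ⟨ge_of_tendsto' hz' fun n => (hb _).1, ?_⟩, hz'⟩
    refine le_of_forall_pos_le_add fun ε hε => le_of_tendsto hz' ?_
    have e1 := eventually_lt_of_limsup_lt (show M < M + ε by linarith) hb1
    exact (((tendsto_sub_atTop_nat j).mono_left hU1).eventually e1).mono fun n hn => hn.le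
  choose z hzI hzT using hz
  have hz0 : z 0 = M := tendsto_nhds_unique (hzT 0) (by simpa using hU2)
  have hrec : ∀ j, z j * (A + ∑ i ∈ range (k + 1), B i * z (j + 1 + i)) =
      ∑ i ∈ range (k + 1), β i * z (j + 1 + i) := by
    intro j
    have l1 := (hzT j).mul ((tendsto_finsetSum (range (k + 1))
      fun i _ => (hzT (j + 1 + i)).const_mul (B i)).const_add A)
    have l2 := tendsto_finsetSum (range (k + 1)) fun i _ => (hzT (j + 1 + i)).const_mul (β i)
    refine tendsto_nhds_unique l1 (l2.congr' ?_)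
    filter_upwards [hU1 (eventually_ge_atTop (j + k + 1))] with n hn
    obtain ⟨m, rfl⟩ : ∃ m, n = m + k + 1 + j := ⟨n - (k + 1 + j), by simp at hn; omega⟩
    have e : ∀ i, m + k + 1 + j - (j + 1 + i) = m + k - i := fun i => by omega
    simp only [e, Nat.add_sub_cancel]
    rw [hx.2, div_mul_cancel₀]
    have : 0 ≤ ∑ i ∈ range (k + 1), B i * x (m + k - i) :=
      sum_nonneg fun i _ => mul_nonneg (hB i) (hb _).1
    positivity
  have hext : ∀ j, z j = M → (∀ i ≤ k, 0 < β i → z (j + 1 + i) = M) ∧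
      ∀ i ≤ k, 0 < B i → z (j + 1 + i) = 0 := fun j hj =>
    extremal hA hβ hB hAβ (fun i => z (j + 1 + i)) M hM (fun i _ => hzI _) (hj ▸ hrec j)
  -- differences of shifts preserving the level set
  have hcl2 : ∀ d ∈ AddSubgroup.closure {d : ℤ | ∃ i ≤ k, 0 < β i ∧ d = ((i + 1 : ℕ) : ℤ)},
      ∃ p q : ℕ, (∀ j, z j = M → z (j + p) = M) ∧ (∀ j, z j = M → z (j + q) = M) ∧
        d = (p : ℤ) - q := by
    intro d hd
    induction hd using AddSubgroup.closure_induction with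
    | mem d hd =>
      obtain ⟨i, hi, hb, rfl⟩ := hd
      exact ⟨i + 1, 0, fun j hj => by
        rw [show j + (i + 1) = j + 1 + i by ring]; exact (hext j hj).1 i hi hb,
        fun j hj => hj, by simp⟩
    | zero => exact ⟨0, 0, fun j hj => hj, fun j hj => hj, by simp⟩
    | add a b _ _ iha ihb =>
      obtain ⟨p, q, h1, h2, rfl⟩ := iha
      obtain ⟨p', q', h1', h2', rfl⟩ := ihb
      exact ⟨p + p', q + q', fun j hj => by rw [← add_assoc]; exact h1' _ (h1 _ hj),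
        fun j hj => by rw [← add_assoc]; exact h2' _ (h2 _ hj), by push_cast; ring⟩
    | neg a _ iha =>
      obtain ⟨p, q, h1, h2, rfl⟩ := iha
      exact ⟨q, p, h2, h1, by ring⟩
  obtain ⟨p, q, h1, h2, h3⟩ := hcl2 _ hmem
  have e1 := h1 0 hz0
  have e2 := (hext _ (h2 0 hz0)).2 t ht hBt
  rw [show 0 + q + 1 + t = 0 + p by omega] at e2
  linarith

end

theorem result : ∀ (k : ℕ) (A : ℝ) (β B : ℕ → ℝ), 0 < A → (∀ i, 0 ≤ β i) → (∀ i, 0 ≤ B i) →
    0 < ∑ i ∈ range (k + 1), β i → 0 < ∑ i ∈ range (k + 1), B i →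
    A = ∑ i ∈ range (k + 1), β i →
    (¬ ∃ (x : ℕ → ℝ) (p : ℕ), IsSol k A β B x ∧ 2 ≤ p ∧
      IsLeast {q : ℕ | 1 ≤ q ∧ ∀ n, x (n + q) = x n} p) →
    (∀ ε > 0, ∃ δ > 0, ∀ x : ℕ → ℝ, IsSol k A β B x → (∀ i ≤ k, x i < δ) → ∀ n, x n < ε) ∧
    ∀ x : ℕ → ℝ, IsSol k A β B x → Tendsto x atTop (𝓝 0) := by
  intro k A β B hA hβ hB _ hBs hAβ hno
  constructor
  · intro ε hε
    refine ⟨ε / 2, by linarith, fun x hx hδ n => ?_⟩
    have := (bound hA hβ hB hAβ hx (ε / 2) (fun i hi => (hδ i hi).le) n).2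
    linarith
  intro x hx
  set H := AddSubgroup.closure {d : ℤ | ∃ i ≤ k, 0 < β i ∧ d = ((i + 1 : ℕ) : ℤ)} with hH
  by_cases hcase : ∃ t ≤ k, 0 < B t ∧ ((t + 1 : ℕ) : ℤ) ∈ H
  · obtain ⟨t, ht, hBt, hmem⟩ := hcase
    exact attract hA hβ hB hAβ t ht hBt hmem hx
  exfalso
  push Not at hcase
  apply hno
  classical
  obtain ⟨t, ht, hBt⟩ : ∃ t ≤ k, 0 < B t := by
    by_contra h
    push Not at h
    have : ∑ i ∈ range (k + 1), B i ≤ 0 := sum_nonpos fun i hi => h i (by simp at hi; omega)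
    linarith
  obtain ⟨s, hs, hβs⟩ : ∃ s ≤ k, 0 < β s := by
    by_contra h
    push Not at h
    have : ∑ i ∈ range (k + 1), β i ≤ 0 := sum_nonpos fun i hi => h i (by simp at hi; omega)
    linarith
  have hgen : ∀ i ≤ k, 0 < β i → ((i + 1 : ℕ) : ℤ) ∈ H := fun i hi hb =>
    AddSubgroup.subset_closure ⟨i, hi, hb, rfl⟩
  set y : ℕ → ℝ := fun n => if (n : ℤ) ∈ H then 1 else 0 with hy
  have hshift : ∀ a b d : ℕ, (d : ℤ) ∈ H → a = b + d → y a = y b := by
    rintro a b d hd rfl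
    simp only [hy]
    push_cast
    simp only [H.add_mem_cancel_right hd]
  have hper : ∃ q : ℕ, 1 ≤ q ∧ ∀ n, y (n + q) = y n :=
    ⟨s + 1, by omega, fun n => hshift _ _ _ (hgen s hs hβs) rfl⟩
  refine ⟨y, Nat.find hper, ⟨fun i _ => by simp only [hy]; split_ifs <;> norm_num, fun n => ?_⟩,
    ?_, ⟨Nat.find_spec hper, fun q hq => Nat.find_min' hper hq⟩⟩
  · have e1 : ∑ i ∈ range (k + 1), β i * y (n + k - i) = A * y (n + k + 1) := by
      rw [hAβ, sum_mul]
      refine sum_congr rfl fun i hi => ?_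
      have hi' : i ≤ k := by simp at hi; omega
      rcases (hβ i).eq_or_lt with h | h
      · rw [← h]; simp
      · rw [hshift (n + k + 1) (n + k - i) (i + 1) (hgen i hi' h) (by omega)]
    rw [e1]
    by_cases hm : ((n + k + 1 : ℕ) : ℤ) ∈ H
    · have e2 : ∑ i ∈ range (k + 1), B i * y (n + k - i) = 0 := by
        refine sum_eq_zero fun i hi => ?_
        have hi' : i ≤ k := by simp at hi; omega
        rcases (hB i).eq_or_lt with h | h
        · rw [← h]; simp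
        · have : ((n + k - i : ℕ) : ℤ) ∉ H := fun h' => hcase i hi' h (by
            have := H.sub_mem hm h'
            rwa [show ((n + k + 1 : ℕ) : ℤ) - ((n + k - i : ℕ) : ℤ) = ((i + 1 : ℕ) : ℤ) by omega]
              at this)
          simp only [hy, if_neg this, mul_zero]
      rw [e2]; field_simp; ring
    · simp only [hy, if_neg hm, mul_zero, zero_div]
  · have h1 := (Nat.find_spec hper).1
    by_contra h2
    have h3 : Nat.find hper = 1 := by omega
    have h4 := (Nat.find_spec hper).2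
    rw [h3] at h4
    have h5 : ∀ n, y n = y 0 := by
      intro n
      induction n with
      | zero => rfl
      | succ n ih => rw [h4, ih]
    have h6 := h5 (t + 1)
    simp only [hy, if_neg (hcase t ht hBt), Nat.cast_zero, if_pos H.zero_mem] at h6
    norm_num at h6

end Pool.Agent.Results.MP_2e7467_an.Gas
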